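import Mathlib
import Pool.Agent.Helper297.Drc
import Pool.Agent.Helper297.Family

set_option autoImplicit false

namespace Pool.Agent.Results.MP_cecf76_co.OrderTheta

open Finset

/-- `I` is `ε`-intersecting for the sequence `A` of subsets of an `n`-set. -/
def EpsInt {n m : ℕ} (A : Fin m → Finset (Fin n)) (ε : ℝ) (I : Finset (Fin m)) : Prop :=
  ∀ i ∈ I, ∀ j ∈ I, i ≠ j → ε * (n : ℝ) < ((A i ∩ A j).card : ℝ)

/-- The sizes `x` such that every sequence of `m` subsets of an `n`-set, each of size more than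
`c n`, has an `ε`-intersecting index set of size `x`. -/
def fSet (n m : ℕ) (c ε : ℝ) : Set ℕ :=
  {x | ∀ A : Fin m → Finset (Fin n), (∀ k, c * (n : ℝ) < ((A k).card : ℝ)) →
    ∃ I : Finset (Fin m), I.card = x ∧ EpsInt A ε I}

/-- The function `f(n,m,c,ε)` of the problem. -/
noncomputable def f (n m : ℕ) (c ε : ℝ) : ℕ := sSup (fSet n m c ε)

/-- The maximum in the definition of `f` is attained. -/
theorem f_isGreatest {n m : ℕ} {c ε : ℝ} (hn : 1 ≤ n) (hc : c < 1) :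
    IsGreatest (fSet n m c ε) (f n m c ε) := by
  have hne : (fSet n m c ε).Nonempty := by
    refine ⟨0, fun A _ => ⟨∅, by simp, ?_⟩⟩
    intro i hi
    simp at hi
  have hbd : BddAbove (fSet n m c ε) := by
    refine ⟨m, ?_⟩
    intro x hx
    obtain ⟨I, hI, _⟩ := hx (fun _ => univ) (by
      intro _
      simp only [Finset.card_univ, Fintype.card_fin]
      have : (1 : ℝ) ≤ (n : ℝ) := by exact_mod_cast hn
      nlinarith)
    rw [← hI]
    have := Finset.card_le_univ I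
    simpa using this
  exact ⟨Nat.sSup_mem hne hbd, fun x hx => le_csSup hbd hx⟩

theorem lower {c : ℝ} (hc0 : 0 < c) (hc1 : c < 1) {s : ℕ} (hs : 1 ≤ s) {ε : ℝ}
    (hε : ε ≤ c ^ (s + 1)) {n m : ℕ} (hn : 1 ≤ n) (hm : 1 ≤ m) :
    (c / 4 * (s : ℝ)⁻¹) * m * (min (m : ℝ) (2 ^ n)) ^ (-(s : ℝ)⁻¹) ≤ (f n m c ε : ℝ) := by
  classical
  have hnR : (1 : ℝ) ≤ (n : ℝ) := by exact_mod_cast hn
  have hmR : (1 : ℝ) ≤ (m : ℝ) := by exact_mod_cast hm
  have hsR : (1 : ℝ) ≤ (s : ℝ) := by exact_mod_cast hs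
  have hsinv : 0 < (s : ℝ)⁻¹ := by positivity
  have : Nonempty (Fin n) := ⟨⟨0, hn⟩⟩
  set W : ℝ := min (m : ℝ) (2 ^ n) with hW
  have hW1 : 1 ≤ W := le_min hmR (one_le_pow₀ (by norm_num))
  set y : ℝ := (c / 4 * (s : ℝ)⁻¹) * m * W ^ (-(s : ℝ)⁻¹) with hy
  suffices hmem : ⌈y⌉₊ ∈ fSet n m c ε by
    have h1 := (f_isGreatest (n := n) (m := m) (c := c) (ε := ε) hn hc1).2 hmem
    calc y ≤ (⌈y⌉₊ : ℝ) := Nat.le_ceil y
      _ ≤ (f n m c ε : ℝ) := by exact_mod_cast h1
  intro A hA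
  let U : Finset (Finset (Fin n)) := univ.image A
  have hU : ∀ S ∈ U, c * (n : ℝ) < (S.card : ℝ) := by
    intro S hS
    obtain ⟨i, _, rfl⟩ := Finset.mem_image.mp hS
    exact hA i
  obtain ⟨K, col, hK, hcol1, hcol2⟩ := Helper297.Drc.greedy
    (fun S T : Finset (Fin n) => ε * (n : ℝ) < ((S ∩ T).card : ℝ))
    (b := c / 4) (δ := (s : ℝ)⁻¹) (by positivity) hsinv (inv_le_one_of_one_le₀ hsR) U
    (by
      intro J hJU hJ
      obtain ⟨I, hIJ, hI1, hI2⟩ := Helper297.Drc.drc_power hc0 hc1 hs J hJ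
        (fun S : Finset (Fin n) => S) (by
          intro S hS
          have := hU S (hJU hS)
          simpa using this.le)
      refine ⟨I, hIJ, hI1, ?_⟩
      intro S hS T hT hST
      have h1 := hI2 S hS T hT hST
      simp only [Fintype.card_fin] at h1
      have h2 : ε * (n : ℝ) ≤ c ^ (s + 1) * (n : ℝ) := mul_le_mul_of_nonneg_right hε (by linarith)
      linarith) U.card U (Finset.Subset.refl U) rfl
  have hUW : (U.card : ℝ) ≤ W := by
    apply le_min
    · have : U.card ≤ (univ : Finset (Fin m)).card := Finset.card_image_le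
      simp only [Finset.card_univ, Fintype.card_fin] at this
      exact_mod_cast this
    · have : U.card ≤ Fintype.card (Finset (Fin n)) := Finset.card_le_univ U
      simp only [Fintype.card_finset, Fintype.card_fin] at this
      exact_mod_cast this
  have hKW : (K : ℝ) ≤ (c / 4 * (s : ℝ)⁻¹)⁻¹ * W ^ ((s : ℝ)⁻¹) := by
    refine hK.trans ?_
    apply mul_le_mul_of_nonneg_left _ (by positivity)
    exact Real.rpow_le_rpow (by positivity) hUW hsinv.le
  -- some colour class is large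
  have hcls : ∃ b ∈ Finset.range K, y ≤ ((univ.filter (fun i => col (A i) = b)).card : ℝ) := by
    by_contra hcon
    push Not at hcon
    have h1 : m = ∑ b ∈ Finset.range K, (univ.filter (fun i => col (A i) = b)).card := by
      have := Finset.card_eq_sum_card_fiberwise (s := (univ : Finset (Fin m)))
        (t := Finset.range K) (f := fun i => col (A i)) (by
          intro i _
          simp only [Finset.coe_range, Set.mem_Iio]
          exact hcol1 (A i) (Finset.mem_image_of_mem A (Finset.mem_univ i)))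
      simpa using this
    have hKpos : 0 < K := by
      have h0 := hcol1 (A ⟨0, hm⟩) (Finset.mem_image_of_mem A (Finset.mem_univ _))
      omega
    have h2 : (m : ℝ) < (K : ℝ) * y := by
      calc (m : ℝ) = ∑ b ∈ Finset.range K, ((univ.filter (fun i => col (A i) = b)).card : ℝ) := by
            exact_mod_cast h1
        _ < ∑ b ∈ Finset.range K, y := by
            apply Finset.sum_lt_sum_of_nonempty
            · exact ⟨0, Finset.mem_range.mpr hKpos⟩
            · exact hcon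
        _ = (K : ℝ) * y := by simp
    have h3 : (K : ℝ) * y ≤ m := by
      calc (K : ℝ) * y ≤ ((c / 4 * (s : ℝ)⁻¹)⁻¹ * W ^ ((s : ℝ)⁻¹)) * y := by
            apply mul_le_mul_of_nonneg_right hKW (by positivity)
        _ = m := by
            rw [hy, Real.rpow_neg (by positivity)]
            field_simp
    linarith
  obtain ⟨b, _, hb⟩ := hcls
  have hb' : ⌈y⌉₊ ≤ (univ.filter (fun i => col (A i) = b)).card := Nat.ceil_le.mpr hb
  obtain ⟨I, hIsub, hIcard⟩ := Finset.exists_subset_card_eq hb'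
  refine ⟨I, hIcard, ?_⟩
  intro i hi j hj hij
  have hi' : col (A i) = b := by simpa using hIsub hi
  have hj' : col (A j) = b := by simpa using hIsub hj
  by_cases hAA : A i = A j
  · rw [hAA, Finset.inter_self]
    have h2 := hA j
    have h3 : ε ≤ c := by
      refine hε.trans ?_
      calc c ^ (s + 1) ≤ c ^ 1 := pow_le_pow_of_le_one hc0.le hc1.le (by omega)
        _ = c := pow_one c
    have h4 : ε * (n : ℝ) ≤ c * (n : ℝ) := mul_le_mul_of_nonneg_right h3 (by linarith)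
    linarith
  · exact hcol2 (A i) (Finset.mem_image_of_mem A (Finset.mem_univ i))
      (A j) (Finset.mem_image_of_mem A (Finset.mem_univ j)) hAA (by rw [hi', hj'])

theorem upper {ε : ℝ} (hε : 0 < ε) (hε1 : ε ≤ 1) :
    ∃ a : ℝ, 0 < a ∧ ∃ C : ℝ, 0 < C ∧ ∀ c : ℝ, 0 < c → c ≤ 1 / 2 → ∀ n m : ℕ, 1 ≤ n → 1 ≤ m →
      (f n m c ε : ℝ) ≤ C * m * (min (m : ℝ) (2 ^ n)) ^ (-a) := by
  classical
  obtain ⟨a, ha, C, hC, hfam⟩ := Helper297.Family.family hε hε1
  refine ⟨a, ha, C, hC, ?_⟩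
  intro c hc0 hc n m hn hm
  have hnR : (1 : ℝ) ≤ (n : ℝ) := by exact_mod_cast hn
  obtain ⟨A, hA, hI⟩ := hfam n m hn hm
  obtain ⟨I, hIcard, hIint⟩ :=
    (f_isGreatest (n := n) (m := m) (c := c) (ε := ε) hn (by linarith)).1 A (by
      intro k
      have := hA k
      have h2 : c * (n : ℝ) ≤ 1 / 2 * (n : ℝ) := mul_le_mul_of_nonneg_right hc (by linarith)
      linarith)
  rw [← hIcard]
  apply hI
  intro i hi j hj hij
  exact (hIint i hi j hj hij).le

/-- For `0 < c ≤ 1/2` and every `δ > 0` there is `ε₀ > 0` such that for every fixed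
`0 < ε ≤ ε₀` there are `a, C > 0` with
`C⁻¹ · m · min(m, 2^n)^(-δ) ≤ f(n,m,c,ε) ≤ C · m · min(m, 2^n)^(-a)` for all `n, m ≥ 1`. -/
theorem result : ∀ c : ℝ, 0 < c → c ≤ 1 / 2 → ∀ δ : ℝ, 0 < δ →
    ∃ ε₀ : ℝ, 0 < ε₀ ∧ ∀ ε : ℝ, 0 < ε → ε ≤ ε₀ →
      ∃ a : ℝ, 0 < a ∧ ∃ C : ℝ, 0 < C ∧ ∀ n m : ℕ, 1 ≤ n → 1 ≤ m →
        C⁻¹ * m * (min (m : ℝ) (2 ^ n)) ^ (-δ) ≤ (f n m c ε : ℝ) ∧
        (f n m c ε : ℝ) ≤ C * m * (min (m : ℝ) (2 ^ n)) ^ (-a) := by
  intro c hc0 hc δ hδ
  obtain ⟨s, hs⟩ := exists_nat_ge (max 1 δ⁻¹)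
  have hs1R : (1 : ℝ) ≤ (s : ℝ) := (le_max_left _ _).trans hs
  have hs1 : 1 ≤ s := by exact_mod_cast hs1R
  have hsδ : (s : ℝ)⁻¹ ≤ δ := by
    have : δ⁻¹ ≤ (s : ℝ) := (le_max_right _ _).trans hs
    exact inv_le_of_inv_le₀ hδ this
  have hc1 : c < 1 := by linarith
  refine ⟨c ^ (s + 1), by positivity, ?_⟩
  intro ε hε hεle
  have hε1 : ε ≤ 1 := hεle.trans (pow_le_one₀ hc0.le hc1.le)
  obtain ⟨a, ha, C₁, hC₁, hup⟩ := upper hε hε1
  set C₂ : ℝ := (c / 4 * (s : ℝ)⁻¹)⁻¹ with hC₂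
  have hC₂pos : 0 < C₂ := by positivity
  refine ⟨a, ha, max C₁ C₂, lt_max_of_lt_left hC₁, ?_⟩
  intro n m hn hm
  have hmR : (1 : ℝ) ≤ (m : ℝ) := by exact_mod_cast hm
  set W : ℝ := min (m : ℝ) (2 ^ n) with hW
  have hW1 : 1 ≤ W := le_min hmR (one_le_pow₀ (by norm_num))
  constructor
  · refine le_trans ?_ (lower hc0 hc1 hs1 hεle hn hm)
    have h1 : (max C₁ C₂)⁻¹ ≤ c / 4 * (s : ℝ)⁻¹ := by
      have := inv_anti₀ hC₂pos (le_max_right C₁ C₂)
      rwa [hC₂, inv_inv] at this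
    have h2 : W ^ (-δ) ≤ W ^ (-(s : ℝ)⁻¹) :=
      Real.rpow_le_rpow_of_exponent_le hW1 (by linarith)
    apply mul_le_mul _ h2 (by positivity) (by positivity)
    exact mul_le_mul_of_nonneg_right h1 (by linarith)
  · refine (hup c hc0 hc n m hn hm).trans ?_
    apply mul_le_mul_of_nonneg_right _ (by positivity)
    exact mul_le_mul_of_nonneg_right (le_max_left _ _) (by linarith)

end Pool.Agent.Results.MP_cecf76_co.OrderTheta
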